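import Mathlib

/-!
# Unique continuation in the plane: statements

`U` is a weak solution of `-Δ U = w` with `|w| ≤ C |U|` in an open set of the plane.
-/

set_option autoImplicit false

open Set Filter Topology MeasureTheory
open scoped ContDiff

noncomputable section

namespace Pool.Agent.H23.UC

/-- `U` has the weak gradient `g` and `-Δ U = w` weakly in the open set `O` of the plane -/
structure Weak (O : Set ℂ) (U : ℂ → ℝ) (g : ℂ → ℂ) (w : ℂ → ℝ) : Prop where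
  mU : ∀ K ⊆ O, IsCompact K → MemLp U 2 (volume.restrict K)
  mg : ∀ K ⊆ O, IsCompact K → MemLp g 2 (volume.restrict K)
  mw : ∀ K ⊆ O, IsCompact K → MemLp w 2 (volume.restrict K)
  grad : ∀ η : ℂ → ℝ, ContDiff ℝ ∞ η → HasCompactSupport η → tsupport η ⊆ O → ∀ v : ℂ,
    ∫ z, U z * fderiv ℝ η z v = -∫ z, inner ℝ (g z) v * η z
  lap : ∀ η : ℂ → ℝ, ContDiff ℝ ∞ η → HasCompactSupport η → tsupport η ⊆ O →
    ∫ z, fderiv ℝ η z (g z) = ∫ z, w z * η z

/-- `UC-CONT`: the solutions are continuous -/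
def StCont : Prop :=
  ∀ (O : Set ℂ) (U : ℂ → ℝ) (g : ℂ → ℂ) (w : ℂ → ℝ), IsOpen O → Weak O U g w →
    ∃ U' : ℂ → ℝ, ContinuousOn U' O ∧ ∀ᵐ z ∂(volume.restrict O), U z = U' z

/-- `UC-UCP`: unique continuation -/
def StUCP : Prop :=
  ∀ (O : Set ℂ) (U : ℂ → ℝ) (g : ℂ → ℂ) (w : ℂ → ℝ) (C : ℝ), IsOpen O → IsPreconnected O →
    Weak O U g w → (∀ᵐ z ∂(volume.restrict O), |w z| ≤ C * |U z|) →
    ∀ O' : Set ℂ, IsOpen O' → O'.Nonempty → O' ⊆ O → (∀ᵐ z ∂(volume.restrict O'), U z = 0) →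
    ∀ᵐ z ∂(volume.restrict O), U z = 0

end Pool.Agent.H23.UC
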