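import Pool.Agent.H23.UC.Stm

/-!
# Clusters of three levels: statements
-/

set_option autoImplicit false

open Set Filter Topology MeasureTheory
open scoped ContDiff

noncomputable section

namespace Pool.Agent.H23.UC

/-- `LR-THREE`: three solutions with `U ^ 2 + V ^ 2 = W ^ 2` are proportional where `W ≠ 0`.

Route. `∇ U`, ... are the weak gradients `gU`, ... (1) The weak equations with the test functions
`U η`, `V η`, `W η` (first for mollifications) give `∫ (|gU|² + |gV|² - |gW|²) η = 0` for all `η`, since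
`U gU + V gV - W gW = ∇ (U² + V² - W²) / 2 = 0` almost everywhere. So `|gU|² + |gV|² = |gW|²` and
`U gU + V gV = W gW` almost everywhere. (2) Where `W ≠ 0` this gives `W gU = U gW` (rotate `(U, V)` into
`(W, 0)`: Cauchy-Schwarz is an equality). (3) On a ball around `z₀` where `|W| ≥ δ`, with
mollifications `U_n`, `W_n` (uniformly close, gradients close in `L²`):
`∇ (U_n / W_n) = (W_n ∇ U_n - U_n ∇ W_n) / W_n² → (W gU - U gW) / W² = 0` in `L¹`, so `U / W` has the
weak gradient `0` and is constant. -/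
def StThree : Prop :=
  ∀ (O : Set ℂ) (U V W : ℂ → ℝ) (gU gV gW : ℂ → ℂ) (ρ : ℂ → ℝ), IsOpen O → ContinuousOn U O →
    ContinuousOn V O → ContinuousOn W O → ContinuousOn ρ O →
    Weak O U gU (fun z => ρ z * U z) → Weak O V gV (fun z => ρ z * V z) →
    Weak O W gW (fun z => ρ z * W z) → (∀ z ∈ O, U z ^ 2 + V z ^ 2 = W z ^ 2) →
    ∀ z₀ ∈ O, W z₀ ≠ 0 → ∃ (c : ℝ) (B : Set ℂ), IsOpen B ∧ z₀ ∈ B ∧ B ⊆ O ∧
      ∀ z ∈ B, U z = c * W z

/-- `LR-DIAG`: diagonalisation of the quadratic form `y ↦ f (y ⊗ y)` -/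
def StDiag : Prop :=
  ∀ (n : ℕ) (f : Module.Dual ℝ (Fin n × Fin n → ℝ)), ∃ (L : Fin n → Fin n → ℝ) (lam : Fin n → ℝ),
    (∀ t : Fin n → ℝ, (∀ k, ∑ j, t j * L j k = 0) → t = 0) ∧
    ∀ y : Fin n → ℝ, f (fun p => y p.1 * y p.2) = ∑ j, lam j * (∑ k, L j k * y k) ^ 2

/-- `LR-ALT`: the space of the alternating functionals -/
def StAlt : Prop :=
  ∀ (n : ℕ) (A : Submodule ℝ (Module.Dual ℝ (Fin n × Fin n → ℝ))),
    (∀ f ∈ A, ∀ y : Fin n → ℝ, f (fun p => y p.1 * y p.2) = 0) →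
    2 * Module.finrank ℝ A + n * (n + 1) ≤ 2 * n ^ 2

end Pool.Agent.H23.UC
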