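import Pool.Agent.H23.UC.Stm

/-!
# Clusters of levels: statements for the exponent `3 n - 1`
-/

set_option autoImplicit false

open Set Filter Topology MeasureTheory
open scoped ContDiff

noncomputable section

namespace Pool.Agent.H23.UC

/-- the determinant with the rows `(a, b, c)`, `(re p, re q, re r)`, `(im p, im q, im r)` -/
def det3 (a b c : ℝ) (p q r : ℂ) : ℝ :=
  a * (q.re * r.im - q.im * r.re) - b * (p.re * r.im - p.im * r.re) + c * (p.re * q.im - p.im * q.re)

/-- `LR-RANK`: if the values and the gradients of three solutions are dependent at almost all points,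
then the solutions are dependent on a disc.

Route. (1) The weak gradient is continuous: near `z₀ ∈ O` take a cutoff `χ = 1` near `z₀`, `P = χ U`,
`Δ P = F = U Δ χ - χ ρ U + 2 ∇ χ · gU`. For the mollifications `P n` the formula of Cauchy and Pompeiu
(library: `Pool.Graph.R_seed8.Helper523.LL.Pompeiu`, theorem `pompeiu`) for `ψ = dz (P n)` gives
`dz (P n) z = (2 π)⁻¹ ∫ Lap (P n) ζ / (z - ζ)`, so in the limit `dz P = (2 π)⁻¹ ∫ F ζ / (z - ζ)` a.e.; this is
continuous near `z₀`: the continuous part of `F` by continuity of the convolution with the locally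
integrable `1 / z` (library: `Pool.Graph.R_seed8.Helper897.ZS.Dbar1`, `locallyIntegrable_S`), the part
`2 ∇ χ · gU` is supported away from `z₀`.
(2) On a disc with `W ≠ 0` (if there is none, `W = 0` on a disc) let `G_U = gU.re - i gU.im`, ... and
`F = W G_U - U G_W`, `H = W G_V - V G_W` (continuous). The hypothesis says `Im (H conj F) = 0`. If `F = 0` on a
disc, then `U = c W` there. Otherwise take a disc with `F ≠ 0`; `μ = H / F` is real and continuous.
With `∂ = D 1 + i D I` (weakly): `∂ G_U = - ρ U`, `∂ F = conj G_W G_U - G_W conj G_U`,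
`∂ H = conj G_W G_V - G_W conj G_V`, these are continuous, and `F ∂ H - H ∂ F = 0` (it is
`± 2 i G_W det3`). Mollify: `∂ (H n / F n) = (F n ∂ H n - H n ∂ F n) / (F n) ^ 2 → 0` locally uniformly, so `μ` is
a real function with the weak gradient zero, and constant (`const_of_weak`).
(3) `H = μ F` says `W ∇ (V - μ U) = (V - μ U) ∇ W`, so `V - μ U = c W`. -/
def StRank : Prop :=
  ∀ (O : Set ℂ) (U V W : ℂ → ℝ) (gU gV gW : ℂ → ℂ) (ρ : ℂ → ℝ), IsOpen O → O.Nonempty →
    ContinuousOn U O → ContinuousOn V O → ContinuousOn W O → ContinuousOn ρ O →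
    Weak O U gU (fun z => ρ z * U z) → Weak O V gV (fun z => ρ z * V z) →
    Weak O W gW (fun z => ρ z * W z) →
    (∀ᵐ z ∂(volume.restrict O), det3 (U z) (V z) (W z) (gU z) (gV z) (gW z) = 0) →
    ∃ (a b c : ℝ) (B : Set ℂ), (a ≠ 0 ∨ b ≠ 0 ∨ c ≠ 0) ∧ IsOpen B ∧ B.Nonempty ∧ B ⊆ O ∧
      ∀ z ∈ B, a * U z + b * V z + c * W z = 0

/-- `LR-REL`: the gradient of a quadratic relation -/
def StRel : Prop :=
  ∀ (m : ℕ) (O : Set ℂ) (u : Fin m → ℂ → ℝ) (g : Fin m → ℂ → ℂ) (w : Fin m → ℂ → ℝ)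
    (q : Fin m → Fin m → ℝ), IsOpen O → (∀ i, ContinuousOn (u i) O) → (∀ i, Weak O (u i) (g i) (w i)) →
    (∀ z ∈ O, ∑ i, ∑ j, q i j * (u i z * u j z) = 0) →
    ∀ᵐ z ∂(volume.restrict O), ∑ i, ∑ j, q i j * (((u i z : ℝ) : ℂ) * g j z + ((u j z : ℝ) : ℂ) * g i z) = 0

/-- `LR-PTS`: the products of `m` functions of rank three span a space of dimension `3 m - 3`.

Route. (1) Claim, by induction on `k`: for any `(k + 2)`-dimensional space `V` of vectors `t ∈ ℝ ^ m`
(functions `f t = ∑ t i u i`), any finite family of `k`-dimensional spaces `L l` of vectors, any nonempty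
open `B ⊆ O` and any null set `N` there are `z 1, ..., z k ∈ B \ N` with: (a) for each `i` the map
`f ↦ (f (z i), ∇ f (z i)) ∈ ℝ ^ 3` is injective on `V i = {f ∈ V | f (z j) = 0 for all j ≠ i}`; (b) for
each `l` no nonzero `f ∈ L l` vanishes at all the `z i`. Step: choose `z ∈ B \ N` where three functions of
`V` have a nonzero determinant and where for each `l` some function of `L l` does not vanish; continue with
`V' = {f ∈ V | f z = 0}`, `L' l = {f ∈ L l | f z = 0}` and in addition `L' = {f ∈ V | f z = 0, ∇ f z = 0}`.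
(2) Apply it to the whole space (`m = k + 2`), `N` = the points where the relations of `A` (a basis of `A`)
or their gradients fail. The `3 k` functionals `h ↦ h (z i), ∇ h (z i)` are defined and independent on the
span of the products (use `f i * f` with `f ∈ V i`, `f i (z i) ≠ 0`), and they vanish on the products
of the functions `f` of `K = {f | f (z i) = 0 for all i}` with themselves, `dim K ≥ 2`; there are three
independent ones: `f ^ 2, f f', f' ^ 2`. So the dimension is at least `3 k + 3 = 3 m - 3`. -/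
def StPts : Prop :=
  ∀ (m : ℕ) (O : Set ℂ) (u : Fin m → ℂ → ℝ) (g : Fin m → ℂ → ℂ), 2 ≤ m → IsOpen O → O.Nonempty →
    (∀ i, ContinuousOn (u i) O) →
    (∀ t : Fin m → ℝ, t ≠ 0 → ∀ B ⊆ O, IsOpen B → B.Nonempty → ∃ z ∈ B, ∑ i, t i * u i z ≠ 0) →
    (∀ t₁ t₂ t₃ : Fin m → ℝ, LinearIndependent ℝ ![t₁, t₂, t₃] → ∀ B ⊆ O, IsOpen B → B.Nonempty →
      ¬ ∀ᵐ z ∂(volume.restrict B), det3 (∑ i, t₁ i * u i z) (∑ i, t₂ i * u i z)
        (∑ i, t₃ i * u i z) (∑ i, ((t₁ i : ℝ) : ℂ) * g i z) (∑ i, ((t₂ i : ℝ) : ℂ) * g i z)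
        (∑ i, ((t₃ i : ℝ) : ℂ) * g i z) = 0) →
    ∀ A : Submodule ℝ (Module.Dual ℝ (Fin m × Fin m → ℝ)),
      (∀ f ∈ A, ∀ᵐ z ∂(volume.restrict O), f (fun p => u p.1 z * u p.2 z) = 0 ∧
        f (fun p => u p.1 z * (g p.2 z).re + (g p.1 z).re * u p.2 z) = 0 ∧
        f (fun p => u p.1 z * (g p.2 z).im + (g p.1 z).im * u p.2 z) = 0) →
      Module.finrank ℝ A + 3 * (m - 1) ≤ m ^ 2

end Pool.Agent.H23.UC
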