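import Pool.Agent.H23.UC.Stm3

/-!
# Level repulsion: statements for the lower bound
-/

set_option autoImplicit false

open Set Filter Topology MeasureTheory

noncomputable section

namespace Pool.Agent.H23.UC

/-- `P` is the law of `ψ + ξ.re • h + ξ.im • k` with independent `ψ`, `ξ`; the random vector `ξ` of the
plane has a density which is bounded from below on a disc around `ζ`, and
`ψ + ζ.re • h + ζ.im • k` is near `φ₀` with positive probability -/
def LowDir2 {E : Type} [NormedAddCommGroup E] [NormedSpace ℝ E] [MeasurableSpace E]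
    (P : Measure E) (h k φ₀ : E) : Prop :=
  ∃ (Q : Measure E) (ν : Measure ℂ) (ζ : ℂ) (r c : ℝ), IsProbabilityMeasure Q ∧
    IsProbabilityMeasure ν ∧ 0 < r ∧ 0 < c ∧
    (∀ A : Set ℂ, MeasurableSet A → A ⊆ Metric.closedBall ζ r →
      ENNReal.ofReal c * volume A ≤ ν A) ∧
    (∀ ρ > 0, 0 < Q (Metric.closedBall (φ₀ - (ζ.re • h + ζ.im • k)) ρ)) ∧
    P = (Q.prod ν).map fun p => p.1 + (p.2.re • h + p.2.im • k)

/-- `LR-SERIES-LOW`: the random series of `StSeries` near a point `∑ t n • h n`, if the densities of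
the coefficients `ξ n` are bounded from below near `t n`.

Route. As for `StSeries`, with `ζ = t n + t k i`; `ψ = ∑' j, η j • h j` is near `∑' j, τ j • h j`
(`τ` is `t` with the coordinates `n`, `k` replaced by `0`) if finitely many `ξ j` are near `t j`,
which has positive probability (product measure of a cylinder). -/
def StSeriesLow : Prop :=
  ∀ (E : Type) [NormedAddCommGroup E] [NormedSpace ℝ E] [CompleteSpace E]
    [SecondCountableTopology E] [MeasurableSpace E] [BorelSpace E] (h : ℕ → E)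
    (ν : ℕ → Measure ℝ) [∀ n, IsProbabilityMeasure (ν n)] (t : ℕ → ℝ),
    (∀ n, ν n (Icc (-1) 1)ᶜ = 0) → Summable (fun n => ‖h n‖) → (∀ n, |t n| ≤ 1) →
    (∀ n, ∃ r c : ℝ, 0 < r ∧ 0 < c ∧ ∀ A : Set ℝ, MeasurableSet A → A ⊆ Icc (t n - r) (t n + r) →
      ENNReal.ofReal c * volume A ≤ ν n A) →
    ∀ n k, n ≠ k → LowDir2 ((Measure.infinitePi ν).map fun ξ : ℕ → ℝ => ∑' n, ξ n • h n)
      (h n) (h k) (∑' n, t n • h n)

end Pool.Agent.H23.UC
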