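import Pool.Agent.H23.UC.Stm

/-!
# Weak solutions have continuous gradients: statement
-/

set_option autoImplicit false

open Set Filter Topology MeasureTheory

noncomputable section

namespace Pool.Agent.H23.UC

/-- `LR-GRAD`: the weak gradient of a weak solution of `- Δ U = w` with continuous `U`, `w` is continuous -/
def StGrad : Prop :=
  ∀ (O : Set ℂ) (U : ℂ → ℝ) (g : ℂ → ℂ) (w : ℂ → ℝ), IsOpen O → ContinuousOn U O →
    ContinuousOn w O → Weak O U g w →
    ∃ G : ℂ → ℂ, ContinuousOn G O ∧ ∀ᵐ z ∂(volume.restrict O), g z = G z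

end Pool.Agent.H23.UC
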