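import Pool.Agent.H23.UC.Stm2

/-!
# Level repulsion: statement on random series
-/

set_option autoImplicit false

open Set Filter Topology MeasureTheory

noncomputable section

namespace Pool.Agent.H23.UC

/-- `LR-SERIES`: random series with independent coefficients in `[-1, 1]` with bounded densities are
carried by a compact set and have bounded densities in the planes spanned by two of the vectors.

Route. `K` is the image of `Set.pi univ fun _ => Icc (-1) 1` (compact) under the series, which is
continuous there (uniform limit of the partial sums). For `n ≠ k`: `Q` is the law of the series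
without the terms `n`, `k` (for instance the law of `∑' j, η j • h j`, where `η` is `ξ` with the
coordinates `n`, `k` replaced by `0`); the coordinates of `infinitePi ν` are independent
(`iIndepFun_infinitePi`), `ξ ↦ (η, (ξ n, ξ k))` has a product law, and the law of `ξ n + ξ k i` is
`≤ c n * c k • volume` on `ℂ` (`Complex.volume_preserving_equiv_real_prod`). -/
def StSeries : Prop :=
  ∀ (E : Type) [NormedAddCommGroup E] [NormedSpace ℝ E] [CompleteSpace E]
    [SecondCountableTopology E] [MeasurableSpace E] [BorelSpace E] (h : ℕ → E)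
    (ν : ℕ → Measure ℝ) [∀ n, IsProbabilityMeasure (ν n)],
    (∀ n, ∃ c : ENNReal, c ≠ ⊤ ∧ ν n ≤ c • (volume : Measure ℝ)) →
    (∀ n, ν n (Icc (-1) 1)ᶜ = 0) → Summable (fun n => ‖h n‖) →
    IsProbabilityMeasure ((Measure.infinitePi ν).map fun ξ : ℕ → ℝ => ∑' n, ξ n • h n) ∧
    (∃ K : Set E, IsCompact K ∧
      ((Measure.infinitePi ν).map fun ξ : ℕ → ℝ => ∑' n, ξ n • h n) Kᶜ = 0) ∧
    ∀ n k, n ≠ k →
      BdDir2 ((Measure.infinitePi ν).map fun ξ : ℕ → ℝ => ∑' n, ξ n • h n) (h n) (h k)

end Pool.Agent.H23.UC
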