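import Mathlib

/-!
# Level repulsion: statements for clusters of levels
-/

set_option autoImplicit false

open Set Filter Topology MeasureTheory

noncomputable section

namespace Pool.Agent.H23.UC

/-- `LR-PLANE-D`: `StPlane` in dimension `d` (same proof: separated points of `A` have disjoint sets
of slopes, up to a null set, by Rademacher's theorem for the conjugate function). -/
def StPlaneD : Prop :=
  ∀ (d : ℕ) (L c : ℝ), 0 < d → 0 < L → 0 < c → ∃ C : ℝ, 0 < C ∧ ∀ (r : ℝ)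
    (F : EuclideanSpace ℝ (Fin d) → ℝ) (A : Set (EuclideanSpace ℝ (Fin d))) (ε : ℝ), 0 < r →
    0 < ε → A ⊆ Metric.closedBall (0 : EuclideanSpace ℝ (Fin d)) r →
    ContinuousOn F (Metric.closedBall (0 : EuclideanSpace ℝ (Fin d)) r) →
    (∀ s ∈ Metric.closedBall (0 : EuclideanSpace ℝ (Fin d)) r,
      ∃ g : EuclideanSpace ℝ (Fin d), ‖g‖ ≤ L ∧
        ∀ y ∈ Metric.closedBall (0 : EuclideanSpace ℝ (Fin d)) r,
          F s + inner ℝ g (y - s) ≤ F y) →
    (∀ s ∈ A, ∃ g : EuclideanSpace ℝ (Fin d), ‖g‖ ≤ L ∧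
      ∀ y ∈ Metric.closedBall (0 : EuclideanSpace ℝ (Fin d)) r,
        F s + inner ℝ g (y - s) + c * ‖y - s‖ - ε ≤ F y) →
    volume A ≤ ENNReal.ofReal (C * ε ^ d)

/-- `P` is the law of `ψ + ∑ j, ξ j • h j` with independent `ψ`, `ξ`, where the random vector `ξ` has
a bounded density -/
def BdDirD {E : Type} [TopologicalSpace E] [AddCommGroup E] [Module ℝ E] [MeasurableSpace E]
    (P : Measure E) {d : ℕ} (h : Fin d → E) : Prop :=
  ∃ (Q : Measure E) (ν : Measure (EuclideanSpace ℝ (Fin d))) (c : ENNReal),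
    IsProbabilityMeasure Q ∧ IsProbabilityMeasure ν ∧ c ≠ ⊤ ∧
    ν ≤ c • (volume : Measure (EuclideanSpace ℝ (Fin d))) ∧
    P = (Q.prod ν).map fun p => p.1 + ∑ j, p.2 j • h j

/-- `LR-CELL-D`: from small balls in the spaces parallel to the `h j` to the probability (`StCell` in
dimension `d`) -/
def StCellD : Prop :=
  ∀ (E : Type) [NormedAddCommGroup E] [NormedSpace ℝ E] [SecondCountableTopology E]
    [MeasurableSpace E] [BorelSpace E] (P : Measure E) (d : ℕ) (h : Fin d → E), BdDirD P h →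
    LinearIndependent ℝ h → ∀ (R r : ℝ), 0 < r → ∃ C : ENNReal, C ≠ ⊤ ∧ ∀ A : Set E,
      MeasurableSet A → (∀ φ ∈ A, ‖φ‖ ≤ R) → ∀ X : ENNReal,
      (∀ ψ : E, volume {z : EuclideanSpace ℝ (Fin d) |
        z ∈ Metric.closedBall (0 : EuclideanSpace ℝ (Fin d)) r ∧ ψ + ∑ j, z j • h j ∈ A} ≤ X) →
      P A ≤ C * X

/-- `LR-SERIES-D`: `StSeries` for `d` different terms of the series -/
def StSeriesD : Prop :=
  ∀ (E : Type) [NormedAddCommGroup E] [NormedSpace ℝ E] [CompleteSpace E]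
    [SecondCountableTopology E] [MeasurableSpace E] [BorelSpace E] (h : ℕ → E)
    (ν : ℕ → Measure ℝ) [∀ n, IsProbabilityMeasure (ν n)],
    (∀ n, ∃ c : ENNReal, c ≠ ⊤ ∧ ν n ≤ c • (volume : Measure ℝ)) →
    (∀ n, ν n (Icc (-1) 1)ᶜ = 0) → Summable (fun n => ‖h n‖) →
    ∀ (d : ℕ) (n : Fin d → ℕ), Function.Injective n →
      BdDirD ((Measure.infinitePi ν).map fun ξ : ℕ → ℝ => ∑' n, ξ n • h n) (fun j => h (n j))

/-- `LR-HOPF`: products of the functions of a finite-dimensional space.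

Route. Induction on `n`: take `f = ∑ t j • v j` and `p` with `f p ≠ 0`, and a basis `g 1, ..., g (n-1)`
of the functions of the space which vanish at `p`. The squares `f ^ 2` does not vanish at `p`; and
not all `f * g i` are combinations of the `g j * g k`: otherwise `|f| * G ≤ C * G ^ 2` for
`G = max |g i|`, and `G` would vanish near `p`, as `f p ≠ 0` and `G → 0`. So the dimension grows by at
least `2`. -/
def StHopf : Prop :=
  ∀ (X : Type) [TopologicalSpace X] [Nonempty X] (n : ℕ) (v : Fin (n + 1) → X → ℝ),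
    (∀ j, Continuous (v j)) →
    (∀ t : Fin (n + 1) → ℝ, t ≠ 0 → ∀ O : Set X, IsOpen O → O.Nonempty →
      ∃ x ∈ O, ∑ j, t j * v j x ≠ 0) →
    2 * n + 1 ≤ Module.finrank ℝ (Submodule.span ℝ
      (range fun p : Fin (n + 1) × Fin (n + 1) => fun x => v p.1 x * v p.2 x))

end Pool.Agent.H23.UC
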