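import Mathlib

/-!
# Level repulsion: statements of two auxiliary facts
-/

set_option autoImplicit false

open Set Filter Topology MeasureTheory
open scoped ContDiff

noncomputable section

namespace Pool.Agent.H23.UC

/-- `LR-PLANE`: a function with bounded subgradients on a disc `Q` cannot have cones of a fixed
opening, up to `ε`, at the points of a set which is larger than `C ε ²`.

Route. Put `ρ = 4 ε / c`. Let `s 1, ..., s N ∈ A` be `2 ρ`-separated. For `‖q - p (s i)‖ < c / 2` the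
function `y ↦ F y - ⟨q, y⟩` attains its minimum over `Q ∩ closedBall (s i) ρ` at a point with
`‖y - s i‖ < ρ`, and by the subgradients (convexity along segments of `Q`) this is a minimum over
`Q`. If `q` belongs to two of the discs `‖q - p (s i)‖ < c / 2`, then `q ↦ sup_{y ∈ Q} (⟨q, y⟩ - F y)`
has two maximizers at `q` and is not differentiable there; this function is Lipschitz, so by
Rademacher's theorem the set of such `q` is null. Hence `N (c / 2) ² ≤ (L + c / 2) ²`. A maximal
separated set gives a cover of `A` by `N` discs with the radius `2 ρ`. -/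
def StPlane : Prop :=
  ∀ (L c : ℝ), 0 < L → 0 < c → ∃ C : ℝ, 0 < C ∧ ∀ (r : ℝ) (F : ℂ → ℝ) (A : Set ℂ) (ε : ℝ), 0 < r →
    0 < ε → A ⊆ Metric.closedBall (0 : ℂ) r →
    ContinuousOn F (Metric.closedBall (0 : ℂ) r) →
    (∀ s ∈ Metric.closedBall (0 : ℂ) r, ∃ g : ℂ, ‖g‖ ≤ L ∧ ∀ y ∈ Metric.closedBall (0 : ℂ) r,
      F s + inner ℝ g (y - s) ≤ F y) →
    (∀ s ∈ A, ∃ g : ℂ, ‖g‖ ≤ L ∧ ∀ y ∈ Metric.closedBall (0 : ℂ) r,
      F s + inner ℝ g (y - s) + c * ‖y - s‖ - ε ≤ F y) →
    volume A ≤ ENNReal.ofReal (C * ε ^ 2)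

/-- `P` is the law of `ψ + ξ.re • h + ξ.im • k` with independent `ψ`, `ξ`, where the random vector
`ξ` of the plane has a bounded density -/
def BdDir2 {E : Type} [TopologicalSpace E] [AddCommGroup E] [Module ℝ E] [MeasurableSpace E]
    (P : Measure E) (h k : E) : Prop :=
  ∃ (Q : Measure E) (ν : Measure ℂ) (c : ENNReal), IsProbabilityMeasure Q ∧
    IsProbabilityMeasure ν ∧ c ≠ ⊤ ∧ ν ≤ c • (volume : Measure ℂ) ∧
    P = (Q.prod ν).map fun p => p.1 + (p.2.re • h + p.2.im • k)

/-- `LR-CELL`: from small discs in the planes parallel to `h`, `k` to the probability -/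
def StCell : Prop :=
  ∀ (E : Type) [NormedAddCommGroup E] [NormedSpace ℝ E] [SecondCountableTopology E]
    [MeasurableSpace E] [BorelSpace E] (P : Measure E) (h k : E), BdDir2 P h k →
    LinearIndependent ℝ ![h, k] → ∀ (R r : ℝ), 0 < r → ∃ C : ENNReal, C ≠ ⊤ ∧ ∀ A : Set E,
      MeasurableSet A → (∀ φ ∈ A, ‖φ‖ ≤ R) → ∀ X : ENNReal,
      (∀ ψ : E, volume {z : ℂ | z ∈ Metric.closedBall (0 : ℂ) r ∧ ψ + (z.re • h + z.im • k) ∈ A} ≤ X) →
      P A ≤ C * X

end Pool.Agent.H23.UC
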