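import Pool.Agent.H23.UC.Stm

/-!
# Clusters of levels: statements for a quadratic exponent
-/

set_option autoImplicit false

open Set Filter Topology MeasureTheory Asymptotics
open scoped ContDiff ComplexConjugate

noncomputable section

namespace Pool.Agent.H23.UC

/-- `f` has at `z₀` the leading term `Re (c (z - z₀) ^ N)` -/
def Lead (f : ℂ → ℝ) (z₀ : ℂ) (N : ℕ) (c : ℂ) : Prop :=
  (fun z => f z - (c * (z - z₀) ^ N).re) =o[𝓝 z₀] fun z => ‖z - z₀‖ ^ N

/-- `LR-BERS`: a solution `U` with `U z₀ = 0` has a leading term.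

Route. Let `B` be a disc at `z₀` with `W ≠ 0`, `F = wr U W = W conj gU - U conj gW` with continuous gradients.
`∂ F = (gW / W) F - (conj gW / W) conj F`, so `∂ F = A F` with `A` bounded and measurable. Let `s` be the Cauchy
transform `(2 π)⁻¹ ∫ A ζ / (z - ζ)` (over `B`); it is continuous and `∂ s = A` weakly in `B`. Then
`h = exp (- s) F` is weakly holomorphic, so holomorphic. Not zero on a disc (else `U = c W`, `c = 0`,
`U = 0`). So `F = exp s · h`, `F z / (z - z₀) ^ k → c₀ ≠ 0`. The gradient of `U / W` is `conj F / W ^ 2`, so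
`U / W - Re (c₁ (z - z₀) ^ (k + 1) / (k + 1))` has a gradient `o (|z - z₀| ^ k)`; integrate. -/
def StBers : Prop :=
  ∀ (O : Set ℂ) (U W : ℂ → ℝ) (gU gW : ℂ → ℂ) (ρ : ℂ → ℝ) (z₀ : ℂ), IsOpen O → z₀ ∈ O →
    ContinuousOn U O → ContinuousOn W O → ContinuousOn ρ O →
    Weak O U gU (fun z => ρ z * U z) → Weak O W gW (fun z => ρ z * W z) → W z₀ ≠ 0 → U z₀ = 0 →
    (∀ B ⊆ O, IsOpen B → B.Nonempty → ∃ z ∈ B, U z ≠ 0) →
    ∃ (N : ℕ) (c : ℂ), 1 ≤ N ∧ c ≠ 0 ∧ Lead U z₀ N c

/-- the form `Re (c a w ^ N a)` -/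
def fm (N : ℕ → ℕ) (c : ℕ → ℂ) (a : ℕ) (w : ℂ) : ℝ := (c a * w ^ N a).re

/-- `LR-CORE`: products of `n + 1` forms of which many are independent.

Route. The product of the forms `a` and `b` is, for `|w| = 1`, half the sum of `Re (c a c b w ^ (N a + N b))`
(the frequency `k = N a + N b`, called pure) and `Re (conj (c a) c b w ^ (N b - N a))` (mixed). So for fixed
`k` the sum over the pairs of the pure and of each mixed frequency vanishes separately (polynomials in
`w`, `|w| = 1`); different pairs of orders `{i, j}`, `i + j = k`, have different `|j - i|`. A class is a set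
of indices with the same order (at most two elements), `a` is a representative if `N (a - 1) < N a`.
* `n = 0, 1` and `n = 2` with `N 1 < N 2`: all pairs.
* `n ≥ 3` and `N (n - 1) < N n`: `K (n - 1)` and the pairs `(a, n)`, `1 ≤ a ≤ n`; these contain the mixed
  frequency `N n - N a` (with coefficient `q conj (c a) c n`), which for `k = N a + N n` does not occur in
  `K (n - 1)`. The number: `2 + n / 2 ≤ n`.
* `n ≥ 2` and `N (n - 1) = N n = t`: the pairs `(0, a)`, `0 ≤ a ≤ n`; `(a, n - 1)`, `(a, n)`, `1 ≤ a ≤ n - 2`;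
  `(n - 1, n - 1)`, `(n - 1, n)`, `(n, n)`; and for `b ≤ n - 2` the pairs `(a, b)` where `a` is a representative and
  `N a < N b` or `a = b`. Lower pairs: the mixed frequency gives `conj (c a) ∑ q c b = 0`, so `q = 0`. Top pairs
  with a class of two elements `i < t`: `k = i + t > t`, the pure frequency occurs only there, and
  `∑ q (a, b) c a c b = 0 = ∑ q (a, b) conj (c a) c b` gives `q = 0`. `k = 2 t`: only the three top pairs.
  Last `(0, a)` by the pure frequency. The number of lower pairs `R` is at least `(n - 2) ^ 2 / 4`: if `ρ` is the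
  number of the representatives in `1, ..., m` and `s = m - ρ` then `2 R ≥ ρ ^ 2 + ρ + s ^ 2 - s` (induction on
  `m`; `ρ ≥ s`, and `ρ ≥ s + 1` if `m` is a representative). -/
def StCore : Prop :=
  ∀ (n : ℕ) (N : ℕ → ℕ) (c : ℕ → ℂ), N 0 = 0 → c 0 = 1 →
    (∀ a, 1 ≤ a → a ≤ n → 1 ≤ N a ∧ c a ≠ 0) →
    (∀ a b, 1 ≤ a → a ≤ b → b ≤ n → N a ≤ N b) →
    (∀ a, 1 ≤ a → a + 2 ≤ n → N a < N (a + 2)) →
    (∀ a, 1 ≤ a → a + 1 ≤ n → N a = N (a + 1) → (conj (c a) * c (a + 1)).im ≠ 0) →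
    ∃ K : Finset (ℕ × ℕ), (∀ p ∈ K, p.1 ≤ p.2 ∧ p.2 ≤ n) ∧ 2 * n + n ^ 2 / 4 + 1 ≤ K.card ∧
      ∀ (k : ℕ) (q : ℕ × ℕ → ℝ),
        (∀ w : ℂ, ∑ p ∈ K with N p.1 + N p.2 = k, q p * (fm N c p.1 w * fm N c p.2 w) = 0) →
        ∀ p ∈ K, N p.1 + N p.2 = k → q p = 0

end Pool.Agent.H23.UC
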