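import Pool.Agent.H23.UC.Stm4

/-!
# Level repulsion: statements on Gaussian measures
-/

set_option autoImplicit false

open Set Filter Topology MeasureTheory ProbabilityTheory

noncomputable section

namespace Pool.Agent.H23.UC

/-- `LR-GAUSS`: nondegenerate Gaussian measures have bounded densities in the planes spanned by two
covariance vectors.

Route. `S` is the set of the vectors `C L = ∫ (L x - P[L]) • x ∂P`, `L` in the dual (Fernique's
theorem gives the integrability); `f (C L) = cov[f, L; P]`. If the span of `S` were not dense, a
functional `L ≠ 0` would vanish on `S`, and then `Var[L; P] = L (C L) = 0`. For independent `h = C f`,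
`k = C g` one can pass to a basis `C f'`, `C g'` of their plane with `Var[f'] = Var[g'] = 1`,
`cov[f', g'] = 0` (then transform the plane by an invertible linear map). Let `Q` be the law of
`x - f' x • C f' - g' x • C g'` and `ν` the law of `(f', g')`: the characteristic functions
(`IsGaussian.charFunDual_eq`, `Measure.ext_of_charFunDual`) show `P = law of ψ + ξ₁ C f' + ξ₂ C g'`. -/
def StGauss : Prop :=
  ∀ (E : Type) [NormedAddCommGroup E] [NormedSpace ℝ E] [CompleteSpace E]
    [SecondCountableTopology E] [MeasurableSpace E] [BorelSpace E] (P : Measure E)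
    [IsGaussian P], (∀ L : StrongDual ℝ E, L ≠ 0 → 0 < Var[L; P]) →
    ∃ S : Set E, Dense (Submodule.span ℝ S : Set E) ∧
      ∀ h ∈ S, ∀ k ∈ S, LinearIndependent ℝ ![h, k] → BdDir2 P h k

/-- `LR-GAUSS-LOW`: the lower bound of the densities for nondegenerate Gaussian measures.

Route. As before; the density of `(ξ₁, ξ₂)` is positive and continuous. The topological support of
`P` is everything: by `IsOpenPosMeasure` for the centred measure, from
`P (ball x ρ) > 0` for some `x` (separability), the rotation invariance of `P × P`
(`map_rotation_eq_self`), which gives it for `x = 0`, and the quasi-invariance of `P` under `C L`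
(decomposition along one direction). `ψ = T X` with `T = id - f' ⊗ C f' - g' ⊗ C g'`, so `ψ` is near
`T φ₀ = φ₀ - (f' φ₀ • C f' + g' φ₀ • C g')` with positive probability. -/
def StGaussLow : Prop :=
  ∀ (E : Type) [NormedAddCommGroup E] [NormedSpace ℝ E] [CompleteSpace E]
    [SecondCountableTopology E] [MeasurableSpace E] [BorelSpace E] (P : Measure E)
    [IsGaussian P], (∀ L : StrongDual ℝ E, L ≠ 0 → 0 < Var[L; P]) →
    ∃ S : Set E, Dense (Submodule.span ℝ S : Set E) ∧
      ∀ φ₀ : E, ∀ h ∈ S, ∀ k ∈ S, LinearIndependent ℝ ![h, k] → LowDir2 P h k φ₀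

end Pool.Agent.H23.UC
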